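import Mathlib
import Pool.Agent.N463.HW.Stm

/-!
Project HW, subtask HW/OP (helper531): the localization operator exists.
-/

set_option autoImplicit false

open MeasureTheory

namespace Pool.Agent.N531.HW.OP

open Pool.Agent.N463.HW

theorem norm_tfs (φ : ℝ → ℂ) (w : ℝ × ℝ) (t : ℝ) : ‖tfs w φ t‖ = ‖φ (t - w.1)‖ := by
  unfold tfs
  have h : (2 * Real.pi * Complex.I * w.2 * t : ℂ) = ((2 * Real.pi * w.2 * t : ℝ) : ℂ) *
      Complex.I := by push_cast; ring
  rw [norm_mul, h, Complex.norm_exp_ofReal_mul_I, one_mul]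

theorem memLp_shift {φ : ℝ → ℂ} (hφ : MemLp φ 2) (a : ℝ) : MemLp (fun t => φ (t - a)) 2 :=
  hφ.comp_measurePreserving (measurePreserving_sub_right volume a)

theorem memLp_tfs {φ : ℝ → ℂ} (hφ : MemLp φ 2) (w : ℝ × ℝ) : MemLp (tfs w φ) 2 := by
  refine (memLp_shift hφ w.1).of_le ?_ (Filter.Eventually.of_forall fun t => (norm_tfs φ w t).le)
  unfold tfs
  refine AEStronglyMeasurable.mul ?_ (memLp_shift hφ w.1).1
  exact Continuous.aestronglyMeasurable (by fun_prop)

theorem eLpNorm_tfs {φ : ℝ → ℂ} (hφ : MemLp φ 2) (w : ℝ × ℝ) :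
    eLpNorm (tfs w φ) 2 volume = eLpNorm φ 2 volume := by
  have h1 : eLpNorm (tfs w φ) 2 volume = eLpNorm (fun t => φ (t - w.1)) 2 volume :=
    eLpNorm_congr_norm_ae (Filter.Eventually.of_forall fun t => norm_tfs φ w t)
  rw [h1]
  exact eLpNorm_comp_measurePreserving hφ.1 (measurePreserving_sub_right volume w.1)

/-- The shifted window as an element of `L²`. -/
noncomputable def Ph {φ : ℝ → ℂ} (hφ : MemLp φ 2) (w : ℝ × ℝ) : Lp ℂ 2 (volume : Measure ℝ) :=
  (memLp_tfs hφ w).toLp (tfs w φ)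

theorem norm_Ph {φ : ℝ → ℂ} (hφ : MemLp φ 2) (w : ℝ × ℝ) :
    ‖Ph hφ w‖ = (eLpNorm φ 2 volume).toReal := by
  unfold Ph
  rw [Lp.norm_toLp, eLpNorm_tfs hφ]

theorem stft_eq {φ : ℝ → ℂ} (hφ : MemLp φ 2) (f : Lp ℂ 2 (volume : Measure ℝ)) (w : ℝ × ℝ) :
    stft φ f w = inner ℂ (Ph hφ w) f := by
  rw [L2.inner_def]
  unfold stft
  apply integral_congr_ae
  filter_upwards [(memLp_tfs hφ w).coeFn_toLp] with t ht
  unfold Ph
  rw [ht, RCLike.inner_apply]

theorem stft_bound {φ : ℝ → ℂ} (hφ : MemLp φ 2) (f : Lp ℂ 2 (volume : Measure ℝ)) (w : ℝ × ℝ) :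
    ‖stft φ f w‖ ≤ (eLpNorm φ 2 volume).toReal * ‖f‖ := by
  rw [stft_eq hφ, ← norm_Ph hφ w]
  exact norm_inner_le_norm _ _

theorem stft_meas {φ f : ℝ → ℂ} (hφ : Measurable φ) (hf : Measurable f) :
    StronglyMeasurable (fun w => stft φ f w) := by
  unfold stft tfs
  refine StronglyMeasurable.integral_prod_right' (f := fun p : (ℝ × ℝ) × ℝ =>
    f p.2 * (starRingEnd ℂ) (Complex.exp (2 * Real.pi * Complex.I * p.1.2 * p.2) *
      φ (p.2 - p.1.1))) ?_
  apply Measurable.stronglyMeasurable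
  fun_prop

theorem stft_congr {φ ψ : ℝ → ℂ} (h : φ =ᵐ[volume] ψ) (f : ℝ → ℂ) (w : ℝ × ℝ) :
    stft φ f w = stft ψ f w := by
  unfold stft
  apply integral_congr_ae
  have h1 : (fun t => φ (t - w.1)) =ᵐ[volume] fun t => ψ (t - w.1) :=
    (measurePreserving_sub_right volume w.1).quasiMeasurePreserving.ae_eq_comp h
  filter_upwards [h1] with t ht
  unfold tfs
  rw [ht]

theorem exists_op (φ : ℝ → ℂ) (hφ : MemLp φ 2) (Ω : Set (ℝ × ℝ)) (hfin : volume Ω ≠ ⊤) :
    ∃ T : Lp ℂ 2 (volume : Measure ℝ) →L[ℂ] Lp ℂ 2 (volume : Measure ℝ),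
      ∀ f g : Lp ℂ 2 (volume : Measure ℝ),
        inner ℂ g (T f) =
          ∫ w in Ω, stft φ f w * (starRingEnd ℂ) (stft φ g w) := by
  have : IsFiniteMeasure (volume.restrict Ω) :=
    ⟨by rw [Measure.restrict_apply_univ]; exact lt_top_iff_ne_top.2 hfin⟩
  have hsm : ∀ f : Lp ℂ 2 (volume : Measure ℝ),
      AEStronglyMeasurable (fun w => stft φ f w) (volume.restrict Ω) := by
    intro f
    obtain ⟨ψ, hψ, he⟩ := hφ.1
    have h1 : (fun w => stft φ f w) = fun w => stft ψ f w := by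
      funext w
      exact stft_congr he f w
    rw [h1]
    exact (stft_meas hψ.measurable (Lp.stronglyMeasurable f).measurable).aestronglyMeasurable
  have hmem : ∀ f : Lp ℂ 2 (volume : Measure ℝ),
      MemLp (fun w => stft φ f w) 2 (volume.restrict Ω) := by
    intro f
    exact MemLp.of_bound (hsm f) _ (Filter.Eventually.of_forall fun w => stft_bound hφ f w)
  set V0 : Lp ℂ 2 (volume : Measure ℝ) →ₗ[ℂ] Lp ℂ 2 (volume.restrict Ω) :=
    { toFun := fun f => (hmem f).toLp _
      map_add' := by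
        intro f g
        rw [← MemLp.toLp_add]
        apply MemLp.toLp_congr
        refine Filter.Eventually.of_forall fun w => ?_
        simp only [Pi.add_apply]
        rw [stft_eq hφ, stft_eq hφ, stft_eq hφ, inner_add_right]
      map_smul' := by
        intro c f
        simp only [RingHom.id_apply]
        rw [← MemLp.toLp_const_smul]
        apply MemLp.toLp_congr
        refine Filter.Eventually.of_forall fun w => ?_
        simp only [Pi.smul_apply, smul_eq_mul]
        rw [stft_eq hφ, stft_eq hφ, inner_smul_right] } with hV0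
  set V : Lp ℂ 2 (volume : Measure ℝ) →L[ℂ] Lp ℂ 2 (volume.restrict Ω) :=
    V0.mkContinuous ((measureUnivNNReal (volume.restrict Ω) : ℝ) ^ ((2 : ENNReal).toReal⁻¹) *
      (eLpNorm φ 2 volume).toReal) (by
        intro f
        have h1 : ∀ᵐ w ∂(volume.restrict Ω), ‖(V0 f) w‖ ≤ (eLpNorm φ 2 volume).toReal * ‖f‖ := by
          filter_upwards [(hmem f).coeFn_toLp] with w hw
          have : (V0 f) w = stft φ f w := hw
          rw [this]
          exact stft_bound hφ f w
        have h2 := Lp.norm_le_of_ae_bound (by positivity) h1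
        rw [mul_assoc]
        exact h2) with hV
  refine ⟨(ContinuousLinearMap.adjoint V) ∘L V, ?_⟩
  intro f g
  rw [ContinuousLinearMap.comp_apply, ContinuousLinearMap.adjoint_inner_right, L2.inner_def]
  apply integral_congr_ae
  filter_upwards [(hmem f).coeFn_toLp, (hmem g).coeFn_toLp] with w hf hg
  have h1 : (V f) w = stft φ f w := hf
  have h2 : (V g) w = stft φ g w := hg
  rw [h1, h2, RCLike.inner_apply]

theorem t_OP (h : S_HL) : S_OP := by
  intro r Ω _ hfin
  exact exists_op (herm r) (h r) Ω hfin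

end Pool.Agent.N531.HW.OP
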